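import Pool.Agent.R37.UltraRay

/-!
# MP_fe499a_co, Question 1: no

There is a graph `F` with (exactly) two cycles, namely a `C₁₂` and a `C₁₈` with exactly one common
vertex, such that the `F`-subgraph-free graphs of diameter at most `3` have bounded treedepth.
-/

set_option autoImplicit false

namespace Pool.Agent.Results.MP_fe499a_co.TwoCyclesBounded

open Filter Pool.Agent.R37 Pool.Agent.R37.GenLink

universe u

/-! ### The statement -/

/-- The subgraph `H` is a cycle. -/
def IsCycleSub {W : Type*} {F : SimpleGraph W} (H : F.Subgraph) : Prop :=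
  ∃ m : ℕ, 3 ≤ m ∧ Nonempty (SimpleGraph.cycleGraph m ≃g H.coe)

/-- `F` contains two distinct cycles as subgraphs. -/
def HasTwoCycles {W : Type*} (F : SimpleGraph W) : Prop :=
  ∃ H₁ H₂ : F.Subgraph, H₁ ≠ H₂ ∧ IsCycleSub H₁ ∧ IsCycleSub H₂

/-- The graph on `0, …, 28` consisting of the cycles `0, 1, …, 11` and `0, 12, 13, …, 28`. -/
def bow : SimpleGraph (Fin 29) :=
  SimpleGraph.fromRel (fun i j =>
    (i.val + 1 = j.val ∧ i.val ≠ 11) ∨ (i.val = 0 ∧ (j.val = 11 ∨ j.val = 12 ∨ j.val = 28)))

instance : DecidableRel bow.Adj := by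
  unfold bow
  infer_instance

/-! ### Two closed paths with one common vertex -/

variable {V : Type u} {G : SimpleGraph V}

/-- two closed paths of lengths `m` and `n` which share exactly one vertex -/
def HasBow (G : SimpleGraph V) (m n : ℕ) : Prop :=
  ∃ (v : V) (I J : List V), IsLink G v v m I ∧ IsLink G v v n J ∧ ∀ w ∈ I, w ∉ J

theorem bow_of_lk_seg {v : V} {m n : ℕ} {F : Finset V} (h : Lk G v v m) (h' : Seg G v v n F) :
    HasBow G m n := by
  classical
  obtain ⟨J, hJ, -⟩ := h'
  obtain ⟨I, hI, hIF⟩ := h J.toFinset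
  exact ⟨v, I, J, hI, hJ, fun w hw hw' => hIF w hw (by simpa using hw')⟩

theorem bow_of_seg_lk {v : V} {m n : ℕ} {F : Finset V} (h : Seg G v v m F) (h' : Lk G v v n) :
    HasBow G m n := by
  classical
  obtain ⟨I, hI, -⟩ := h
  obtain ⟨J, hJ, hJF⟩ := h' I.toFinset
  exact ⟨v, I, J, hI, hJ, fun w hw hw' => hJF w hw' (by simpa using hw)⟩

/-- closed paths through `h` which may use `j` and avoid any other finite set -/
def Cl (G : SimpleGraph V) (h j : V) (n : ℕ) : Prop :=
  ∀ F : Finset V, j ∉ F → Seg G h h n F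

theorem cl_of_lk {h j : V} {m n : ℕ} (hne : h ≠ j) (h1 : Lk G h j m) (h2 : Lk G h j n) :
    Cl G h j (m + n) := by
  classical
  intro F hF
  exact (h1 (insert h F)).trans_lk h2.symm hne hne hF

theorem bow_of_cl_cl {h j j' : V} {m n : ℕ} (hne : j ≠ j') (h1 : Cl G h j m)
    (h2 : Cl G h j' n) : HasBow G m n := by
  classical
  obtain ⟨I, hI, hIF⟩ := h1 {j'} (by simpa using hne)
  obtain ⟨J, hJ, hJF⟩ := h2 I.toFinset (by
    intro hmem
    rw [List.mem_toFinset] at hmem
    exact hIF j' hmem (by simp))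
  exact ⟨h, I, J, hI, hJ, fun w hw hw' => hJF w hw' (by simpa using hw)⟩

/-- robust closed paths through almost all members of a family -/
theorem closed_of_ln {y : ℕ → V} {ℓ₁ ℓ₂ : ℕ} (hy : GenLink.Inf y) (h : Ln G y ℓ₁)
    (h' : Ln G y ℓ₂) : ∀ᶠ i in U, Lk G (y i) (y i) (ℓ₁ + ℓ₂) := by
  classical
  filter_upwards [h, h'] with i hi hi' F
  obtain ⟨j, hj, hj', hjF⟩ := (hi.and (hi'.and (hy (insert (y i) F)))).exists
  simp only [Finset.mem_insert, not_or] at hjF
  exact (hj (insert (y i) F)).trans_lk hj'.symm (Ne.symm hjF.1) (Ne.symm hjF.1) hjF.2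

theorem bow_of_ln {y : ℕ → V} {a b c d m n : ℕ} (hy : GenLink.Inf y) (ha : Ln G y a)
    (hb : Ln G y b) (hc : Ln G y c) (hd : Ln G y d) (hm : a + b = m) (hn : c + d = n) :
    HasBow G m n := by
  subst hm hn
  obtain ⟨i, h1, h2⟩ := ((closed_of_ln hy ha hb).and (closed_of_ln hy hc hd)).exists
  exact bow_of_lk_seg h1 (h2 ∅)

theorem bow_of_ln2 {y : ℕ → V} (hyi : GenLink.Inf y) (h : Ln G y 2) : HasBow G 12 18 :=
  bow_of_ln hyi h (Ln.mul hyi h.st h 4) h (Ln.mul hyi h.st h 7) rfl rfl

theorem bow_of_ln4_st2 {y : ℕ → V} (hyi : GenLink.Inf y) (h : Ln G y 4) (h' : St G y y 2) :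
    HasBow G 12 18 :=
  bow_of_ln hyi h (Ln.mul hyi h' h 2) h (Ln.mul hyi h' h 5) rfl rfl

theorem bow_of_ln4_st3 {y : ℕ → V} (hyi : GenLink.Inf y) (h : Ln G y 4) (h' : St G y y 3) :
    HasBow G 12 18 :=
  bow_of_ln hyi h (Ln.mul hyi h.st h 1) (Ln.mul hyi h.st h 1) (Ln.mul hyi h' h 2) rfl rfl

theorem bow_of_ln6_st3 {y : ℕ → V} (hyi : GenLink.Inf y) (h : Ln G y 6) (h' : St G y y 3) :
    HasBow G 12 18 :=
  bow_of_ln hyi h h h (Ln.mul hyi h' h 2) rfl rfl

/-- a family without a hub gives the bow -/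
theorem bow_of_nonHub {y : ℕ → V} (hd : Dist3 G) (hyi : GenLink.Inf y) (hy : NonHub G y) :
    HasBow G 12 18 := by
  rcases connect (x := y) hd hy hyi with ⟨c, hg⟩ | ⟨hcn, u, v, hg, hu | ⟨W, hW, hg2⟩⟩
  · rcases eqv_or_nev c with he | he
    · exact bow_of_ln2 hyi (gen2_ln2 hy hg he)
    · exact bow_of_ln4_st2 hyi (gen2_ln4 hy hyi hg he) (gen2_st hy hg)
  · have hst := gen3_st hy hg hu
    rcases eqv_or_nev u with he | he
    · exact bow_of_ln2 hyi (gen3_ln2 hg hu he)
    · rcases eqv_or_nev v with hv | hv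
      · exact bow_of_ln4_st3 hyi (gen3_ln4 hy hg hu he hv) hst
      · exact bow_of_ln6_st3 hyi (gen3_ln6 hy hyi hcn hg hu he hv) hst
  · have hWi : GenLink.Inf W := by
      intro F
      filter_upwards [hW, hy.fin F] with k hk hk' hmem
      exact hk' _ hmem hk.symm
    rcases eqv_or_nev v with he | he
    · exact bow_of_ln2 hWi (gen2_ln2 hy hg2 he)
    · refine bow_of_ln4_st3 hWi (gen2_ln4 hy hyi hg2 he) ?_
      filter_upwards [hg2, gen2_mem hy hg2, he.ne W] with i hi hi' hi'' F
      classical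
      filter_upwards [hi, hi' F, hi'', hyi (insert (W i) F), hW] with k k1 k2 k3 k4 k5
      simp only [Finset.mem_insert, not_or] at k4
      refine ⟨[v i k, y k], isLink_three k1.1 k1.2 k5 (Ne.symm k4.1) (Ne.symm k3), ?_⟩
      simp [k2, k4.2]

/-! ### All positions have hubs -/

section hubs

theorem two_val {α : Type*} {a b x y w : α} (hx : x = a ∨ x = b) (hy : y = a ∨ y = b)
    (hw : w = a ∨ w = b) (h1 : y ≠ x) (h2 : w ≠ y) : w = x := by
  rcases hx with rfl | rfl <;> rcases hy with rfl | rfl <;> rcases hw with rfl | rfl <;>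
    first
      | rfl
      | exact absurd rfl h1
      | exact absurd rfl h2

/-- the abstract combinatorics of the hubs -/
theorem hubs_bow {z : ℕ → V} (hz : ∀ a b, a ≤ b → Lk G (z a) (z b) (b - a + 2)) :
    HasBow G 12 18 := by
  classical
  by_contra hno
  -- closed paths through two hubs
  have hcl : ∀ {h j : V} {m n : ℕ}, h ≠ j → Lk G h j m → Lk G h j n →
      Cl G h j (m + n) ∧ Cl G j h (m + n) := by
    intro h j m n hne h1 h2
    exact ⟨cl_of_lk hne h1 h2, cl_of_lk (Ne.symm hne) h1.symm h2.symm⟩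
  have hP : ∀ i, z i ≠ z (i + 4) →
      Cl G (z i) (z (i + 4)) 12 ∧ Cl G (z (i + 4)) (z i) 12 := by
    intro i hi
    have h1 := hz i (i + 4) (by omega)
    rw [show i + 4 - i + 2 = 6 by omega] at h1
    exact hcl hi h1 h1
  have hQ : ∀ i, z i ≠ z (i + 7) →
      Cl G (z i) (z (i + 7)) 18 ∧ Cl G (z (i + 7)) (z i) 18 := by
    intro i hi
    have h1 := hz i (i + 7) (by omega)
    rw [show i + 7 - i + 2 = 9 by omega] at h1
    exact hcl hi h1 h1
  have hP1 : ∀ i, z i ≠ z (i + 1) → z (i + 2 * 4) = z i →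
      Cl G (z i) (z (i + 1)) 12 ∧ Cl G (z (i + 1)) (z i) 12 := by
    intro i hi h8
    have h1 := hz i (i + 1) (by omega)
    have h2 := (hz (i + 1) (i + 2 * 4) (by omega)).symm
    rw [show i + 1 - i + 2 = 3 by omega] at h1
    rw [show i + 2 * 4 - (i + 1) + 2 = 9 by omega, h8] at h2
    exact hcl hi h1 h2
  have hQ1 : ∀ i, z i ≠ z (i + 1) → z (i + 2 * 7) = z i →
      Cl G (z i) (z (i + 1)) 18 ∧ Cl G (z (i + 1)) (z i) 18 := by
    intro i hi h8
    have h1 := hz i (i + 1) (by omega)
    have h2 := (hz (i + 1) (i + 2 * 7) (by omega)).symm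
    rw [show i + 1 - i + 2 = 3 by omega] at h1
    rw [show i + 2 * 7 - (i + 1) + 2 = 15 by omega, h8] at h2
    exact hcl hi h1 h2
  -- existence of partners
  have key : ∀ (P : V → V → Prop) (m : ℕ), (∀ i, z i ≠ z (i + m) → P (z i) (z (i + m))) →
      (∀ i, z i ≠ z (i + 1) → z (i + 2 * m) = z i → P (z i) (z (i + 1))) →
      ∀ i, (∃ k, P (z i) (z k)) ∨ ∀ t, z (i + t) = z i := by
    intro P m h1 h2 i
    by_cases hex : ∃ k, P (z i) (z k)
    · exact Or.inl hex
    · right
      push Not at hex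
      have hs : ∀ p, z p = z i → z (p + 1) = z i := by
        intro p hp
        by_contra hne
        have e1 : z (p + m) = z i := by
          by_contra h
          have := h1 p (by rw [hp]; exact Ne.symm h)
          rw [hp] at this
          exact hex _ this
        have e2 : z (p + m + m) = z i := by
          by_contra h
          have := h1 (p + m) (by rw [e1]; exact Ne.symm h)
          rw [e1] at this
          exact hex _ this
        have := h2 p (by rw [hp]; exact Ne.symm hne) (by
          rw [show p + 2 * m = p + m + m by ring, e2, hp])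
        rw [hp] at this
        exact hex _ this
      intro t
      induction t with
      | zero => rfl
      | succ t ih => exact hs _ ih
  have exP := key (fun h j => Cl G h j 12 ∧ Cl G j h 12) 4 hP hP1
  have exQ := key (fun h j => Cl G h j 18 ∧ Cl G j h 18) 7 hQ hQ1
  have not12 : ∀ i, ¬ Lk G (z i) (z i) 12 := by
    intro i h12
    rcases exQ i with ⟨k, hk, -⟩ | hall
    · exact hno (bow_of_lk_seg h12 (hk ∅ (by simp)))
    · have h1 := hz i (i + 16) (by omega)
      rw [show i + 16 - i + 2 = 18 by omega, hall 16] at h1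
      exact hno (bow_of_lk_seg h12 (h1 ∅))
  have not18 : ∀ i, ¬ Lk G (z i) (z i) 18 := by
    intro i h18
    rcases exP i with ⟨k, hk, -⟩ | hall
    · exact hno (bow_of_seg_lk (hk ∅ (by simp)) h18)
    · have h1 := hz i (i + 10) (by omega)
      rw [show i + 10 - i + 2 = 12 by omega, hall 10] at h1
      exact not12 i h1
  have ne10 : ∀ i, z (i + 10) ≠ z i := by
    intro i hi
    have h1 := hz i (i + 10) (by omega)
    rw [show i + 10 - i + 2 = 12 by omega, hi] at h1
    exact not12 i h1
  have ne16 : ∀ i, z (i + 16) ≠ z i := by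
    intro i hi
    have h1 := hz i (i + 16) (by omega)
    rw [show i + 16 - i + 2 = 18 by omega, hi] at h1
    exact not18 i h1
  -- uniqueness
  have huniq : ∀ h j j', Cl G h j 12 → Cl G h j' 18 → j = j' := by
    intro h j j' h1 h2
    by_contra hne
    exact hno (bow_of_cl_cl hne h1 h2)
  -- the partner of the first hub
  obtain ⟨k, hk, hk'⟩ : ∃ k, Cl G (z 0) (z k) 12 ∧ Cl G (z k) (z 0) 12 :=
    (exP 0).resolve_right (fun h => ne10 0 (h 10))
  obtain ⟨l, hl, hl'⟩ : ∃ k, Cl G (z 0) (z k) 18 ∧ Cl G (z k) (z 0) 18 :=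
    (exQ 0).resolve_right (fun h => ne10 0 (h 10))
  have ekl : z k = z l := huniq _ _ _ hk hl
  rw [← ekl] at hl hl'
  have step : ∀ i, (z i = z 0 ∨ z i = z k) →
      (z (i + 4) = z 0 ∨ z (i + 4) = z k) ∧ (z (i + 7) = z 0 ∨ z (i + 7) = z k) := by
    intro i hi
    have h4 := hP i
    have h7 := hQ i
    rcases hi with hi | hi
    · rw [hi] at h4 h7
      refine ⟨?_, ?_⟩
      · by_cases h : z (i + 4) = z 0
        · exact Or.inl h
        · exact Or.inr (huniq _ _ _ (h4 (Ne.symm h)).1 hl)
      · by_cases h : z (i + 7) = z 0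
        · exact Or.inl h
        · exact Or.inr (huniq _ _ _ hk (h7 (Ne.symm h)).1).symm
    · rw [hi] at h4 h7
      refine ⟨?_, ?_⟩
      · by_cases h : z (i + 4) = z k
        · exact Or.inr h
        · exact Or.inl (huniq _ _ _ (h4 (Ne.symm h)).1 hl')
      · by_cases h : z (i + 7) = z k
        · exact Or.inr h
        · exact Or.inl (huniq _ _ _ hk' (h7 (Ne.symm h)).1).symm
  have s0 : z 0 = z 0 ∨ z 0 = z k := Or.inl rfl
  have s4 := (step 0 s0).1
  have s7 := (step 0 s0).2
  have s8 := (step _ s4).1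
  have s11 := (step _ s7).1
  have s12 := (step _ s8).1
  have s14 := (step _ s7).2
  have s16 := (step _ s12).1
  have s18 := (step _ s14).1
  have s19 := (step _ s12).2
  have s20 := (step _ s16).1
  have s21 := (step _ s14).2
  norm_num at s18 s19 s20 s21
  have two : ∀ n, 18 ≤ n → (z n = z 0 ∨ z n = z k) := by
    intro n
    induction n using Nat.strong_induction_on with
    | _ n ih =>
      intro hn
      by_cases h22 : 22 ≤ n
      · obtain ⟨m, rfl⟩ : ∃ m, n = m + 4 := ⟨n - 4, by omega⟩
        exact (step m (ih m (by omega) (by omega))).1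
      · have : n = 18 ∨ n = 19 ∨ n = 20 ∨ n = 21 := by omega
        rcases this with rfl | rfl | rfl | rfl
        · exact s18
        · exact s19
        · exact s20
        · exact s21
  have per : ∀ d, (∀ i, z (i + d) ≠ z i) → ∀ n, 18 ≤ n → z (n + d + d) = z n := by
    intro d hd n hn
    have h1 := two n hn
    have h2 := two (n + d) (by omega)
    have h3 := two (n + d + d) (by omega)
    have h4 := hd n
    have h5 := hd (n + d)
    exact two_val h1 h2 h3 h4 h5
  have p10 := per 10 ne10
  have p16 := per 16 ne16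
  have e1 : z (18 + 80) = z 18 := by
    rw [show 18 + 80 = 78 + 10 + 10 by rfl, p10 78 (by omega), show 78 = 58 + 10 + 10 by rfl,
      p10 58 (by omega), show 58 = 38 + 10 + 10 by rfl, p10 38 (by omega),
      show 38 = 18 + 10 + 10 by rfl, p10 18 (by omega)]
  have e2 : z (18 + 64) = z 18 := by
    rw [show 18 + 64 = 50 + 16 + 16 by rfl, p16 50 (by omega), show 50 = 18 + 16 + 16 by rfl,
      p16 18 (by omega)]
  exact ne16 (18 + 64) (e1.trans e2.symm)

/-- the main theorem for infinite graphs -/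
theorem bow_of_ray {f : ℕ → V} (hf : Function.Injective f)
    (hadj : ∀ n, G.Adj (f n) (f (n + 1))) (hd : Dist3 G) : HasBow G 12 18 := by
  by_cases h : ∀ a, ∃ z, Hub G f a z
  · choose z hz using h
    exact hubs_bow (z := z) (fun a b hab => hub_hub hf hadj hab (hz a) (hz b))
  · push Not at h
    obtain ⟨a, ha⟩ := h
    exact bow_of_nonHub hd (pos_inf hf a) ((hub_or f a).resolve_left (fun ⟨z, hz⟩ => ha z hz))

end hubs

/-! ### The graph `bow` -/

theorem bow_contained {G : SimpleGraph V} (h : HasBow G 12 18) : bow.IsContained G := by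
  obtain ⟨v, I, J, ⟨h1, h2, h3, -, h5⟩, ⟨k1, k2, k3, -, k5⟩, hIJ⟩ := h
  have hI : I.length = 11 := by omega
  have hJ : J.length = 17 := by omega
  set L := v :: (I ++ J) with hL
  have hLl : L.length = 29 := by simp [hL, hI, hJ]
  have hnd : L.Nodup := by
    rw [hL, List.nodup_cons, List.nodup_append]
    refine ⟨by simp [h3, k3], h2, k2, ?_⟩
    intro a ha b hb hab
    exact hIJ a ha (hab ▸ hb)
  let φ : Fin 29 → V := fun i => L[i.val]'(by rw [hLl]; exact i.2)
  have hinj : Function.Injective φ := by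
    intro i j hij
    exact Fin.ext ((List.Nodup.getElem_inj_iff hnd).1 hij)
  rw [List.isChain_iff_getElem] at h5 k5
  have g1 : ∀ i : ℕ, (hi : i < 12) → (v :: (I ++ [v]))[i]'(by simp; omega) =
      L[i]'(by omega) := by
    intro i hi
    rcases i with _ | i
    · rfl
    · simp only [hL, List.getElem_cons_succ]
      rw [List.getElem_append_left (by omega), List.getElem_append_left (by omega)]
  have g2 : ∀ i : ℕ, (hi : i < 17) → (v :: (J ++ [v]))[i + 1]'(by simp; omega) =
      L[i + 12]'(by omega) := by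
    intro i hi
    simp only [hL, List.getElem_cons_succ, show i + 12 = (i + 11) + 1 by rfl]
    rw [List.getElem_append_left (by omega), List.getElem_append_right (by omega)]
    congr 1
    omega
  have g3 : (v :: (I ++ [v]))[12]'(by simp; omega) = L[0]'(by omega) := by
    simp only [hL, List.getElem_cons_succ, List.getElem_cons_zero]
    rw [List.getElem_append_right (by omega)]
    simp [hI]
  have g4 : (v :: (J ++ [v]))[18]'(by simp; omega) = L[0]'(by omega) := by
    simp only [hL, List.getElem_cons_succ, List.getElem_cons_zero]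
    rw [List.getElem_append_right (by omega)]
    simp [hJ]
  have g5 : (v :: (J ++ [v]))[0]'(by simp) = L[0]'(by omega) := rfl
  have a1 : ∀ i, (hi : i < 11) → G.Adj (L[i]'(by omega)) (L[i + 1]'(by omega)) := by
    intro i hi
    have := h5 i (by simp; omega)
    rwa [g1 i (by omega), g1 (i + 1) (by omega)] at this
  have a2 : ∀ i, 12 ≤ i → (hi : i < 28) → G.Adj (L[i]'(by omega)) (L[i + 1]'(by omega)) := by
    intro i hi0 hi
    obtain ⟨m, rfl⟩ : ∃ m, i = m + 12 := ⟨i - 12, by omega⟩
    have := k5 (m + 1) (by simp; omega)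
    rw [g2 m (by omega), g2 (m + 1) (by omega)] at this
    exact this
  have a3 : G.Adj (L[0]'(by omega)) (L[11]'(by omega)) := by
    have := h5 11 (by simp; omega)
    rw [g1 11 (by omega), g3] at this
    exact this.symm
  have a4 : G.Adj (L[0]'(by omega)) (L[12]'(by omega)) := by
    have := k5 0 (by simp)
    rw [g5, g2 0 (by omega)] at this
    exact this
  have a5 : G.Adj (L[0]'(by omega)) (L[28]'(by omega)) := by
    have := k5 17 (by simp; omega)
    rw [g2 16 (by omega), g4] at this
    exact this.symm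
  have hdir : ∀ i j : Fin 29, ((i.val + 1 = j.val ∧ i.val ≠ 11) ∨
      (i.val = 0 ∧ (j.val = 11 ∨ j.val = 12 ∨ j.val = 28))) → G.Adj (φ i) (φ j) := by
    rintro ⟨i, hi⟩ ⟨j, hj⟩ h
    simp only at h
    rcases h with ⟨rfl, h⟩ | ⟨rfl, rfl | rfl | rfl⟩
    · by_cases h' : i < 11
      · exact a1 i h'
      · exact a2 i (by omega) (by omega)
    · exact a3
    · exact a4
    · exact a5
  refine ⟨⟨⟨φ, ?_⟩, hinj⟩⟩
  intro i j hij
  rw [bow, SimpleGraph.fromRel_adj] at hij
  rcases hij.2 with h | h
  · exact hdir i j h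
  · exact (hdir j i h).symm

/-- the first cycle -/
def cyc1 : SimpleGraph.Copy (SimpleGraph.cycleGraph 12) bow where
  toHom := ⟨fun i => ⟨i.val, by omega⟩, by
    intro a b
    revert a b
    decide⟩
  injective' := by
    intro a b h
    simpa [Fin.ext_iff] using h

/-- the second cycle -/
def cyc2 : SimpleGraph.Copy (SimpleGraph.cycleGraph 18) bow where
  toHom := ⟨fun i => if h : i.val = 0 then 0 else ⟨i.val + 11, by omega⟩, by
    intro a b
    revert a b
    decide⟩
  injective' := by
    intro a b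
    revert a b
    decide

theorem bow_hasTwoCycles : HasTwoCycles bow := by
  refine ⟨cyc1.toSubgraph, cyc2.toSubgraph, ?_, ⟨12, by norm_num, ⟨cyc1.isoToSubgraph⟩⟩,
    ⟨18, by norm_num, ⟨cyc2.isoToSubgraph⟩⟩⟩
  intro h
  have h1 : (28 : Fin 29) ∈ cyc2.toSubgraph.verts := by
    simp only [SimpleGraph.Copy.toSubgraph, SimpleGraph.Subgraph.map_verts]
    exact ⟨17, trivial, rfl⟩
  rw [← h] at h1
  simp only [SimpleGraph.Copy.toSubgraph, SimpleGraph.Subgraph.map_verts] at h1
  obtain ⟨i, -, hi⟩ := h1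
  have : (cyc1.toHom i).val = i.val := rfl
  have h2 : (cyc1.toHom i).val = 28 := congrArg Fin.val hi
  have := i.isLt
  omega

/-! ### Compactness -/

theorem treedepth_bound : ∃ c : ℕ, ∀ (V : Type u) [Finite V]
    (G : SimpleGraph V), G.ediam ≤ 3 → bow.Free G → TreedepthLE G c := by
  by_contra hcon
  push Not at hcon
  choose V hfin G hdiam hfree htd using hcon
  have hpath := fun n => @TDepth.exists_path (V n) (G n) (hfin n) n (htd n)
  choose f hf1 hf2 using hpath
  let F : ℕ → Quotient (us V) := fun k => Quotient.mk (us V) (fun n => f n k)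
  have hlarge : ∀ N : ℕ, ∀ᶠ n in (U : Filter ℕ), N < n := by
    intro N
    apply Filter.hyperfilter_le_cofinite
    rw [Filter.mem_cofinite]
    apply (Set.finite_Iic N).subset
    intro n hn
    simpa using hn
  have hFinj : Function.Injective F := by
    intro i j hij
    have h1 : ∀ᶠ n in (U : Filter ℕ), f n i = f n j := Quotient.exact hij
    obtain ⟨n, h2, h3, h4⟩ := (h1.and ((hlarge i).and (hlarge j))).exists
    exact hf1 n i h3.le j h4.le h2
  have hFadj : ∀ k, (ug G).Adj (F k) (F (k + 1)) := by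
    intro k
    rw [ug_adj]
    exact (hlarge k).mono (fun n hn => hf2 n k hn)
  have hd : Dist3 (ug G) := ug_dist3 (fun n => dist3_of_ediam (hdiam n))
  obtain ⟨m, hm⟩ := contained_of_ug (bow_contained (bow_of_ray hFinj hFadj hd))
  exact (not_isEmpty_iff.2 hm) (hfree m)

/-- **Q1, disproved** (the negated form): there are a graph `F` with at least two cycles and a
number `k` such that every `F`-subgraph-free graph of diameter at most `3` has treedepth at most
`k`. -/
theorem result : ∃ (n : ℕ) (F : SimpleGraph (Fin n)), HasTwoCycles F ∧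
    ∃ k : ℕ, ∀ (V : Type) [Finite V] (G : SimpleGraph V),
      G.ediam ≤ 3 → F.Free G → TreedepthLE G k :=
  ⟨29, bow, bow_hasTwoCycles, treedepth_bound⟩

end Pool.Agent.Results.MP_fe499a_co.TwoCyclesBounded
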